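import Pool.Agent.H621.HG.Cnv

/-!
# The standard conjecture of Hodge type for the products of an arbitrary variety with varieties with
# big monodromy: the number of the exceptions is bounded by the Betti numbers

Let `k` be an algebraically closed field of positive characteristic and `F` a subfield, finitely
generated over the prime field (not finite), with Galois group `Γ`. Let `Z` be **any** smooth projective
variety over `F`, with Betti numbers `b_j`. Nothing is assumed about `Z`. Let `X_i`, `i ∈ J`, be a
finite or infinite family of varieties over `F` for which numerical and homological equivalence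
coincide and which have big monodromy `T_i`: the transcendental cohomology `T_i` of `X_i` (the
orthogonal complement of all algebraic classes) is in the middle degree, and the Lie algebra of the
symplectic or orthogonal group of `T_i` is an irreducible representation of `Γ` and not commutative.
For instance the `X_i` are pairwise non-isogenous elliptic curves with nonconstant `j`-invariants, or
curves or surfaces with big monodromy. The `X_i` are not related to each other: for every finite part
of the family there is an element of `Γ` (a Frobenius element) whose eigenvalues on the `T_i` satisfy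
only the multiplicative relations given by the forms (`HasGenericElement`).

**Theorem.** There is a finite set `S` of exceptional members of the family, of total rank

`∑_{i ∈ S} ⌊dim T_i / 2⌋ ≤ ∑_{j ≤ dim Z} ⌊b_j / 2⌋`,

such that for all `s` and all products `Y = X_1^(n_1) × ⋯ × X_m^(n_m) × Z^s` of powers of members of
the family which do not belong to `S` (with `n_i < dim T_i` if `dim X_i` is even):

* the class `c` of every divisor on `Y` with hard Lefschetz (for instance of every ample divisor) is the
  sum of the pull-backs of classes `f_i` of divisors on `X_i^(n_i)` and of the class `e` of a divisor on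
  `Z^s`, with hard Lefschetz;
* if the conjecture of Hodge type holds for all `(X_i^(n_i), f_i)`, or if `f_i` is a sum of pull-backs
  of classes `d` of divisors on `X_i` such that the conjecture of Hodge type holds for `(X_i, d)`, then

  the conjecture of Hodge type for `(Y, c)` holds **if and only if** it holds for `(Z^s, e)`.

More generally one can replace `Z^s` by any variety whose cohomology is generated by the cohomology of
`Z` and by finitely many other members of the family, exceptional or not. The set `S` is given
explicitly: `X_i` is exceptional if for **all** elements `g` of `Γ` the (normalised) eigenvalues of `g`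
on `T_i` are, up to roots of unity, in the group generated by the normalised eigenvalues of `g` on the
cohomology of `Z` (`IsExceptional`).

The conjecture of Hodge type is known in dimension at most three; in particular it is known for curves
and surfaces `X_i`. So for all varieties `Z` with `dim Z ≤ 3` over `F`, without any condition, and all
members of a family of curves or surfaces with big monodromy with at most `∑_j ⌊b_j / 2⌋` exceptions,
the theorem gives the conjecture of Hodge type for the products `X_1^(n_1) × ⋯ × X_m^(n_m) × Z`, of
arbitrary dimension, with the sum of the pull-backs of any polarizations of the factors; and the same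
with every polarization whatsoever if `n_i = 1` for all `i`. It is not known that the conjecture of
Hodge type for two varieties implies the conjecture for their product: the product has in general many
algebraic classes which are not sums of products.

## The formal statement

`W` is a Weil cohomology theory with algebraically closed coefficients (étale cohomology with
coefficients in the closure of `ℚ_ℓ`) on a class of smooth proper varieties, with an action of `Γ` on
the cohomology of the varieties under consideration. `PRep` is a representation with a nondegenerate
symmetric or alternating form which is multiplied by scalars. The `G_j`, `j ∈ N`, are finitely many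
such representations, for instance `G_j = H^j(Z)`, `j ≤ dim Z`, with the forms given by the hard
Lefschetz theorem. `GeneratedBy G Z` says that the cohomology of `Z` is generated by the `G_j`: for
every class `x ≠ 0` there is a linear map from the cohomology to multilinear forms on the `G_j`,
equivariant up to scalars for a subgroup of finite index, which does not kill `x`; this is so for all
powers of `Z`. `Tower X T Z U Y` says that `Y` is the product of `Z` and of powers of the `X_i`,
`i ∈ U`. `SumTower X T Z p e U Y c` says moreover that the class `c` on `Y` is the sum of the pull-backs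
of the class `e` on `Z` and of classes `f_i` on the powers of the `X_i` which satisfy the condition
`p`. `IsLefschetz W X d` says that `d` is the class of a divisor on `X` which satisfies the hard
Lefschetz theorem, and `HodgeType W X d` is the conjecture of Hodge type for the form given by `d`. The
variety `Z` is supposed to be not empty (`H(Z) ≠ 0`), and the group `Γ` is supposed to act on the
cohomology of the products `X_i × X_i × Z` too.

## Proof

The exceptional set and the bound for it are those of the file `BoundedExceptions` of the problem
`MP_0fca13_ag` (Tate conjecture); a member `X_i` which is not exceptional is independent of `Z`: the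
Lie algebra of its monodromy kills all equivariant maps between tensor powers of `T_i` and the
cohomology of the other factors. By the library `H802T` the cycles on the product split into products
of cycles. The algebraic classes on the powers of `X_i` are generated by those of `X_i` and the
transcendental part of the diagonal, which is orthogonal to the other classes of `X_i × X_i` and has
the square `dim T_i > 0` for the polarized form, whatever the two polarizations are (`H621.HG.Sq`);
positivity on the powers follows by the library `W552`. The transfer between `Z` and the product,
without any conjecture for `Z`, is the tensor product argument of the library `TH132`.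
-/

open CategoryTheory AlgebraicGeometry

universe u

namespace Pool.Agent.Results.MP_361a6f_ag.BoundedExceptions

open Pool.Agent.H914 Pool.Agent.H914.VarClass Pool.Agent.H914.VarClass.Obj
  Pool.Agent.TH125.Gal Pool.Agent.H802T Pool.Agent.H621.HG.Cls

section rep

variable {K : Type} [Field K] {Γ : Type} [Group Γ]

/-- `x` is a normalised eigenvalue of `g` on the representation `P`: `x = b ^ 2 / c`, where `b` is an
eigenvalue of `g` and `c` is the factor by which `g` multiplies the form. -/
def IsNormalisedEigenvalue (P : PRep K Γ) (g : Γ) (x : Kˣ) : Prop :=
  ∃ b c : Kˣ, (c : K) = P.mult g ∧ (∃ v : P.V, v ≠ 0 ∧ opr P.ρ g v = (b : K) • v) ∧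
    x = b ^ 2 / c

/-- The representation `P` is exceptional for the family `G`: for all elements `g` all normalised
eigenvalues of `g` on `P` have a power in the group generated by the normalised eigenvalues of `g` on
the `G j`. -/
def IsExceptional {N : Type} (G : N → PRep K Γ) (P : PRep K Γ) : Prop :=
  ∀ (g : Γ) (x : Kˣ), IsNormalisedEigenvalue P g x →
    ∃ n : ℕ, 0 < n ∧ x ^ n ∈ Subgroup.closure {y | ∃ j, IsNormalisedEigenvalue (G j) g y}

/-- Some element `g` has `∑ i, ⌊dim (T i) / 2⌋` multiplicatively independent normalised eigenvalues,
`⌊dim (T i) / 2⌋` of them on `T i`. (There are no more, as the inverse of a normalised eigenvalue is a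
normalised eigenvalue.) -/
def HasGenericElement {ι : Type} (T : ι → PRep K Γ) : Prop :=
  ∃ (g : Γ) (x : (Σ i, Fin ((T i).dim / 2)) → Kˣ), (∀ q, IsNormalisedEigenvalue (T q.1) g (x q)) ∧
    LinearIndependent ℤ fun q => Additive.ofMul (x q)

/-- `S` is the set of all `i` such that `T i` is exceptional for `G`, and
`∑ i ∈ S, ⌊dim (T i) / 2⌋ ≤ ∑ j, ⌊dim (G j) / 2⌋`. -/
def IsExceptionalSet {J N : Type} [Fintype N] (T : J → PRep K Γ) (G : N → PRep K Γ)
    (S : Finset J) : Prop :=
  (∀ i, i ∈ S ↔ IsExceptional G (T i)) ∧ ∑ i ∈ S, (T i).dim / 2 ≤ ∑ j, (G j).dim / 2

end rep

variable {k : Type u} [Field k] {𝒱 : VarClass k} {ops : CycleOps 𝒱}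
  {W : WeilCohomology.{u, 0} ops} {Γ : Type} [Group Γ]

/-- `Γ` acts on the cohomology of the variety `Y` like a Galois group. -/
def ActsLikeGalois (χ : Γ →* W.Kˣ) (Y : GVar W Γ) : Prop :=
  IsGaloisAct χ (W.gr Y.X) Y.X.dim (W.tr Y.X) (algClasses W Y.X) Y.act

/-- A finite or infinite family of varieties with big monodromy: `Γ` acts on the cohomology of the
varieties `X i` like a Galois group; numerical and homological equivalence coincide for them; their
transcendental cohomology `T i` is in the middle degree and has big monodromy; all finite subfamilies
have a generic element. -/
structure BigFamily (χ : Γ →* W.Kˣ) {J : Type} (X : J → GVar W Γ) (T : J → PRep W.K Γ) : Prop where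
  galois : ∀ i, ActsLikeGalois χ (X i)
  numEqHom : ∀ i, NumEqHom (W.tr (X i).X) (algClasses W (X i).X) (X i).X.dim
  middle : ∀ i, Within (transcendental W (X i).X) (W.gr (X i).X (X i).X.dim)
  trans : ∀ i, IsTrans (X i) (T i)
  big : ∀ i, Big (T i).ρ (T i).form
  generic : ∀ A : Finset J, HasGenericElement fun i : A => T i

/-- **The conjecture of Hodge type for products: the exceptions are bounded by the Betti numbers.** -/
theorem result [IsAlgClosed W.K] (χ : Γ →* W.Kˣ) {J N : Type} [Fintype N] (X : J → GVar W Γ)
    (T : J → PRep W.K Γ) (hX : BigFamily χ X T) (G : N → PRep W.K Γ) :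
    ∃ S : Finset J, IsExceptionalSet T G S ∧
      ∀ (B : Finset J) (Z : GVar W Γ), GeneratedBy (Sum.elim (fun i : B => T i) G) Z →
        Nontrivial (W.H Z.X) → (∀ U Y, Tower X T Z U Y → ActsLikeGalois χ Y) →
        (∀ i, ∃ Y, IsPowTimes (X i) 1 Z Y) →
        ∀ (U : Set J) (Y : GVar W Γ), Tower X T Z U Y → (∀ i ∈ U, i ∉ B ∧ i ∉ S) →
          (∀ c, IsLefschetz W Y.X c → ∃ e, IsLefschetz W Z.X e ∧
            SumTower X T Z (fun A n f => IsLefschetz W (power ops A n) f) e U Y c) ∧
          ∀ e c, IsLefschetz W Z.X e → SumTower X T Z (IsPowerPolarization W) e U Y c →
            IsLefschetz W Y.X c ∧ (HodgeType W Y.X c ↔ HodgeType W Z.X e) := by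
  have h : Pool.Agent.H621.FX.Mem χ X T :=
    ⟨hX.galois, fun i => homEqNum (hX.numEqHom i), hX.middle, hX.trans, hX.big, hX.generic⟩
  obtain ⟨S, h1, h2⟩ := Pool.Agent.H621.FX.exists_exc h G
  refine ⟨S, ⟨h2, h1⟩, fun B Z hZ hZ1 hgal hsq U Y hY hU => ?_⟩
  have hU' : ∀ i ∈ U, i ∉ B ∧ ¬ Pool.Agent.H621.FX.Exc G (T i) := fun i hi =>
    ⟨(hU i hi).1, fun he => (hU i hi).2 ((h2 i).2 he)⟩
  refine ⟨fun c hc => ?_, fun e c he hT => ?_⟩
  · obtain ⟨C, rfl, hC⟩ := isLefschetz_iff'.1 hc
    obtain ⟨E, hE, hT⟩ := Pool.Agent.H621.HG.div_tower h hZ hgal one_ne_zero hY hU' C hC
    exact ⟨W.cl _ E, isLefschetz_iff'.2 ⟨E, rfl, hE⟩,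
      SumTower.classes (fun i n F hF => isLefschetz_iff'.2 ⟨F, rfl, hF⟩) hT⟩
  · obtain ⟨E, rfl, hE⟩ := isLefschetz_iff'.1 he
    obtain ⟨C, rfl, hC, hT'⟩ := hT.cycles
      (p' := fun i n F => Pool.Agent.H621.HG.PowPol W (X i).X n F)
      (fun i n f hf => by
        obtain ⟨F, hF, hF'⟩ := powPol hf
        exact ⟨F, hF, hF'.1.1, hF'⟩) hE.1
    obtain ⟨h3, h4⟩ := Pool.Agent.H621.HG.hodge_tower h hZ hgal hsq one_ne_zero hE hT' hU'
    exact ⟨isLefschetz_iff'.2 ⟨C, rfl, h3⟩,
      (hodgeType_iff' h3).trans (h4.trans (hodgeType_iff' hE).symm)⟩

end Pool.Agent.Results.MP_361a6f_ag.BoundedExceptions
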