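import Pool.Agent.H934.PA.Hyper

/-!
# The standard conjecture of Hodge type for liftable varieties over finite fields with at most one
# class of Tate type on each piece

Let `X` be a smooth projective variety over the algebraic closure of a finite field, with an ample
divisor `D` and a Frobenius endomorphism `f`, such that `(X, D)` lifts to characteristic zero. Suppose
that the primitive cohomology of every degree `2 j` is the orthogonal direct sum of pieces which are cut
out by algebraic correspondences and which lift to characteristic zero (for example there is only one
piece, the whole of the primitive cohomology). Let `mult` be the multiplicity of the Frobenius eigenvalue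
`q ^ j` on a piece (the field being so large that no other eigenvalue is the product of `q ^ j` and a
root of unity).

**Theorem.** If on every piece there are `mult - 1` orthogonal algebraic classes for which the sign is
the one predicted by the Hodge-Riemann relations (no condition if `mult ≤ 1`; for `mult ≥ 2` it is enough
that this many classes lift to characteristic zero), then the standard conjecture of Hodge type holds for
`(X, D)` and all `ℓ`-adic cohomologies.

The case `mult = 1` is the usual one of a forced eigenvalue: if the rank of a piece is odd, the
eigenvalue `q ^ j` (or `- q ^ j`, over a smaller field) occurs, for example on the primitive cohomology of
a hypersurface of even dimension and even degree, and by the theorems on big monodromy there is nothing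
else for almost all such hypersurfaces. The Tate conjecture predicts a primitive algebraic class, and
this class does not lift in general. If it exists then its sign is the right one by the theorem.

Method (parity of the number of the wrong signs). Let `z₁, …, z_r` be orthogonal algebraic classes on a
piece, `r = mult`. By the formula of Zassenhaus for the discriminant of a space with an isometry without
eigenvalues `± 1`, the discriminant of the piece over `ℚ_ℓ` is the product of the self-intersections of
the `z_i` and of `g (q ^ j) g (- q ^ j)`, up to squares, where `g` is the other factor of the
characteristic polynomial (`disc_eigen`); the latter number is positive since `g` has no real roots.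
The discriminant of the piece is on the other hand a rational number independent of `ℓ`, and its sign is
known by the Hodge-Riemann relations on the lifting (`HasHodgeSigns.sign`). A rational number which is a
square in `ℚ_ℓ` for almost all `ℓ` is positive (`pos_of_squares`). Hence the number of the `z_i` with
the wrong sign is even (`parity_piece`). The choice of `ℓ` is immaterial for the `z_i` up to numerical
equivalence, by the conjecture `A` for `X` (`exists_piece`), which is a part of the hypotheses for general
`X`. If the cohomology outside the middle degree is spanned by powers of `D` (`IsHypersurfaceLike`: all
hypersurfaces and complete intersections in projective space), then nothing is assumed beyond known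
theorems. For example the standard conjecture of Hodge type holds for every smooth hypersurface of
dimension `2 j` over a finite field such that at most one Frobenius eigenvalue on the primitive
cohomology is the product of `q ^ j` and a root of unity (apply the theorem over an extension of the
field).
-/

set_option autoImplicit false

open CategoryTheory AlgebraicGeometry

universe u v

namespace Pool.Agent.Results.MP_361a6f_ag.OneTateClass

open Pool.Agent.H914 Pool.Agent.H934.Lift VarClass Obj WeilCohomology

/-- **The standard conjecture of Hodge type for liftable varieties over finite fields such that on each
piece of the primitive cohomology all but at most one of the Frobenius eigenvalues of Tate type are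
explained by algebraic classes with the right signs.** -/
theorem result {k : Type u} [Field k] {𝒱 : VarClass k} {ops : CycleOps 𝒱} {p : ℕ}
    (S : LadicSystem.{u, v} ops p) {X : 𝒱.Obj} {D : X.Cycles} (hD : X.IsCyc 1 D) {f : X ⟶ X}
    {q : ℕ} (hq : 0 < q)
    (hX : ∀ l : Nat.Primes, (l : ℕ) ≠ p → IsFrobenius (S.W l) X D f q ∧
      (IsHypersurfaceLike (S.W l) X D ∨ LefschetzA (S.W l) X D))
    (Sp : ∀ j, 2 * j ≤ X.dim → Splitting S X D f q j) (l : Nat.Primes) (hl : (l : ℕ) ≠ p)
    (hP : ∀ j hj i, HasPositive (S.W l) X D j ((Sp j hj).piece i).corr ((Sp j hj).piece i).mult) :
    HodgeType (S.W l) X D :=
  hodge_of_hasPositive hD hq (fun l hl => ⟨(hX l hl).1, lefschetzA_of_or hD (hX l hl).2⟩) Sp l hl hP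

end Pool.Agent.Results.MP_361a6f_ag.OneTateClass
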