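import Pool.Agent.H934.SF.Final

/-!
# The standard conjecture of Hodge type for fourfolds fibred over surfaces

The first open case of the standard conjecture of Hodge type (in positive characteristic) is that of
surfaces on fourfolds: for an ample divisor `D` on a smooth projective fourfold `X` and a cycle `z` of
codimension two which is primitive (`D · z` is numerically equivalent to zero) and not numerically
equivalent to zero, `z · z > 0`. It is known for abelian fourfolds.

Let `Derived W` be the smallest class of fourfolds which is stable under blowing up smooth centres and
under images with respect to generically finite morphisms and which contains the following fourfolds.

1. (`fibred`) The fourfolds `P` with a morphism `p : P ⟶ S` to a surface (with arbitrary singular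
   fibres) for which the relative transcendental cycles have nonnegative self-intersection numbers
   (`IsPositivelyFibred`). A cycle `z` of codimension two on `P` is *transcendental relative to `p`* if
   its intersection numbers with the evident cycles are zero: the fibres `p^* b`, the cycles
   `p^* a · D i` for divisors `a` on `S`, the cycle `D 0 · D 0`, and `ε j · p^* h`, `ε j · D 0`; here the
   `D i` are divisors on `P` (independent on the fibres), and the `ε j` divisors which are numerically
   trivial on the general fibre (components of reducible fibres, or coming from the relative Picard
   variety). For example there are no transcendental cycles, up to numerical equivalence, if `p` is a
   smooth family of surfaces with `ρ = b_2` and `b_1 = 0` and with divisors `D i` which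
   form a basis in the fibres: supersingular K3 surfaces, Enriques surfaces, surfaces of general type
   with `p_g = q = 0`, and so on.
2. (`disjoint`) The products `X × Y` of two surfaces such that all correspondences from `X` to `Y`
   induce zero on the transcendental part of `H^2(X)` (the orthogonal complement of the divisors), for
   example the products of a surface with `ρ = b_2` and an arbitrary surface.
3. (`square`, `unequal`) The products `X × X` and `X × Y`, where `X` is a surface such that all algebraic
   correspondences from `X` to itself act by scalars on the transcendental part of `H^2(X)` (for
   example a general member of a family with big monodromy, over a field of positive transcendence
   degree), and `Y` is any surface whose transcendental part has smaller rank, or has different rank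
   if the correspondences from `Y` to itself act by scalars on it as well. For example `X` can be a K3
   surface with scalar correspondences and transcendental rank at least six, and `Y` any abelian surface.
4. (`lifted`) The products `X × Y` of two surfaces which lift to characteristic zero together with ample
   divisors, such that the correspondences from `X` to itself act by scalars on the transcendental part
   of `H^2(X)` and the transcendental parts of `H^2(X)` and `H^2(Y)` have the same odd rank. There may be
   nonzero correspondences between the transcendental parts; for example `X` and `Y` can be two K3
   surfaces with the same odd Picard number (over a field of characteristic `p`) for which there
   is some nonzero correspondence between the transcendental parts, about which nothing else is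
   known. Here the cohomology theory is one of the `ℓ`-adic theories, and the correspondences act by
   scalars for all `ℓ ≠ p`. The liftings of `X` and `Y` enter only through the Gram matrix of the
   intersection form on the primitive part of the Betti cohomology in degree two (`HasGram`) and the
   sign of its determinant, which is given by the Hodge-Riemann relations.

**Theorem.** The numerical standard conjecture of Hodge type holds for all fourfolds in `Derived W` and
all divisors `D` with the Hodge index theorem (for example all ample divisors).

By stability under blow-ups and generically finite images this applies, for example, to the Hilbert
scheme of two points on `X` if `X × X` is as in 3, and to quotients of `X × Y` by finite groups (after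
resolving quotient singularities by blowing up smooth centres), for the products in 2, 3 and 4. (This
remark is not part of the Lean statement.)

The geometric input in the definitions is well known: the Hodge index theorem for surfaces and for the
fibres, the intersection numbers of divisors on the fibres, and, for products, the description
of the correspondences between the odd cohomology groups of two surfaces by divisors on the product
(`AlbaneseBasis`). No standard conjecture is assumed, and no hard Lefschetz theorem.

Method. A fourfold is *good* if its intersection form in codimension two has less negative squares than
the rank `ρ₁` of the group of divisors modulo numerical equivalence; for a good fourfold the conjecture
holds for every `D`, and this property is stable under the operations above (this was used in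
`MP_ffcd14_ag.UniruledFourfolds` for families of rational curves over threefolds). On a fibration
`p : P ⟶ S` the evident cycles are an orthogonal sum: the cycles `p^* b` and `D 0 · D 0` span a hyperbolic
plane; the form on the cycles `p^* a · D 0` is a positive multiple of the intersection form of `S`, with
`ρ(S) - 1` negative squares, the form on the `p^* a · D i`, `i ≥ 1`, is the tensor product of a negative
definite form and the intersection form of `S`, with one negative square for each `i`; and the cycles
`ε j · p^* h` and `ε j · D 0` contribute at most one negative square for each `j`. Since the divisors
`p^* a`, `D i`, `ε j` are independent, `ρ₁ ≥ ρ(S) + 1 + r + m`, and `P` is good if the form on the
relative transcendental cycles is nonnegative.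

For a transcendental correspondence `z` between two surfaces `X` and `Y`, with the induced map
`T : T(X) ⟶ T(Y)` and its adjoint `T'`, the number `z · z` is the trace of `T' T`, that is `r s` if
`T' T = s` on the space `T(X)` of dimension `r` (the contributions of the odd cohomology and of the
divisors vanish). So `T` is injective if `z · z ≠ 0`, which settles the case of unequal ranks. If
`Y = X` then `T` is a scalar `c`, and `r c` is the rational number `z · Δ`, so that
`z · z = r c ^ 2 ≥ 0`. In 4, if `z · z ≠ 0` then `T` is bijective and multiplies the form by
`s = z · z / r`. In an orthogonal basis of the primitive part of `H^2(X)` which consists of divisors and
of elements of `T(X)`, and in the corresponding basis for `Y`, one finds that `δ(X) δ(Y) s ^ r` is a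
square in `ℚ_ℓ`, for all `ℓ ≠ p`, where the rational numbers `δ(X)`, `δ(Y)` are the discriminants of the
rational Gram matrices of the liftings divided by those of the groups of divisors. A rational number which
is a square in almost all `ℚ_ℓ` is positive. By the Hodge-Riemann relations in characteristic zero and
the Hodge index theorem the product `δ(X) δ(Y)` is positive, so `s ^ r > 0`, and `s > 0` for odd `r`.
-/

set_option autoImplicit false

open CategoryTheory AlgebraicGeometry

universe u v

namespace Pool.Agent.Results.MP_361a6f_ag.SurfaceFibrations

open Pool.Agent.H914 Pool.Agent.H934.HS Pool.Agent.H934.SF VarClass Obj WeilCohomology

/-- **The standard conjecture of Hodge type for the fourfolds derived from the positively fibred ones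
and from the products of surfaces above.** -/
theorem result {k : Type u} [Field k] {𝒱 : VarClass k} {ops : CycleOps 𝒱}
    (W : WeilCohomology.{u, v} ops) {X : 𝒱.Obj} (hX : Derived W X) {D : X.Cycles}
    (hD : HodgeIndex W X D) : NumHodge ops X D :=
  numHodge_of_good (good_of_derived hX) hD

end Pool.Agent.Results.MP_361a6f_ag.SurfaceFibrations
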